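import Pool.Agent.H452.SXN.Homeo

/-!
# Simplices with the affine Baire extension property and extreme boundary `ℕ ^ I` (helper452)

For every set `I` there is a simplex with the affine Baire extension property whose set of extreme
points is homeomorphic to the product space `ℕ ^ I`. If `I` is uncountable, this space is neither
Lindelöf nor normal.
-/

set_option autoImplicit false

namespace Pool.Agent.Results.MP_8d13c5_an.ExtremeBoundaryPowers

open Pool.Agent.H810R3.Sx Pool.Agent.H452.SXN

universe u

/-- For every set `I` there are a Hausdorff locally convex space `E` and a nonempty compact convex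
subset `X` of `E` which is a simplex with the affine Baire extension property and whose set of
extreme points is homeomorphic to the product `ℕ ^ I` of `I` copies of the discrete space `ℕ`. If
`I` is uncountable, the set of extreme points is not Lindelöf and not even normal. -/
theorem result (I : Type u) : ∃ (E : Type u) (_ : AddCommGroup E) (_ : Module ℝ E)
    (_ : TopologicalSpace E) (_ : IsTopologicalAddGroup E) (_ : ContinuousSMul ℝ E)
    (_ : LocallyConvexSpace ℝ E) (_ : T2Space E) (X : Set E), IsCompact X ∧ Convex ℝ X ∧
      X.Nonempty ∧ IsSimplex X ∧ HasAffineBaireExtension X ∧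
      Nonempty (X.extremePoints ℝ ≃ₜ (I → ℕ)) ∧
      (Uncountable I → ¬ LindelofSpace (X.extremePoints ℝ) ∧
        ¬ NormalSpace (X.extremePoints ℝ)) :=
  ⟨(I →₀ ℕ) → ℝ, inferInstance, inferInstance, inferInstance, inferInstance, inferInstance,
    inferInstance, inferInstance, XX I, XX_compact, XX_convex, XX_nonempty, XX_simplex, XX_ext,
    ⟨(homeo I).symm⟩, fun _ => ⟨not_lindelof, ext_not_normal⟩⟩

end Pool.Agent.Results.MP_8d13c5_an.ExtremeBoundaryPowers
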